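import Pool.Agent.Helper12.VW.Defs

/-! # VW-N4: many reducible quadratic polynomials -/

open Polynomial

namespace Pool.Agent.Helper12.VW

/-! ### the sum of `φ p / p ^ 2` -/

private lemma sum_mult_le (M d : ℕ) (hd : 1 ≤ d) :
    ∑ m ∈ (Finset.Icc 1 M).filter (fun m => d ∣ m), ((m : ℝ) ^ 2)⁻¹ ≤ 2 / (d : ℝ) ^ 2 := by
  classical
  have hsub : (Finset.Icc 1 M).filter (fun m => d ∣ m) ⊆
      (Finset.Ioo 0 (M + 1)).image (fun e => d * e) := by
    intro m hm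
    rw [Finset.mem_filter, Finset.mem_Icc] at hm
    obtain ⟨e, he⟩ := hm.2
    rw [Finset.mem_image]
    refine ⟨e, ?_, he.symm⟩
    rw [Finset.mem_Ioo]
    constructor
    · rcases Nat.eq_zero_or_pos e with h | h
      · rw [h, mul_zero] at he; omega
      · exact h
    · have : e ≤ d * e := Nat.le_mul_of_pos_left _ hd
      omega
  refine (Finset.sum_le_sum_of_subset_of_nonneg hsub (fun _ _ _ => by positivity)).trans ?_
  rw [Finset.sum_image (fun x _ y _ h => Nat.eq_of_mul_eq_mul_left hd h)]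
  have h1 := sum_Ioo_inv_sq_le (α := ℝ) 0 (M + 1)
  have hd' : (0 : ℝ) < d := by exact_mod_cast hd
  have h2 : ∑ x ∈ Finset.Ioo 0 (M + 1), (((d * x : ℕ) : ℝ) ^ 2)⁻¹ =
      ((d : ℝ) ^ 2)⁻¹ * ∑ x ∈ Finset.Ioo 0 (M + 1), ((x : ℝ) ^ 2)⁻¹ := by
    rw [Finset.mul_sum]
    refine Finset.sum_congr rfl ?_
    intro x _
    push_cast
    rw [mul_pow, mul_inv]
  rw [h2]
  have h3 : ((d : ℝ) ^ 2)⁻¹ * ∑ x ∈ Finset.Ioo 0 (M + 1), ((x : ℝ) ^ 2)⁻¹ ≤
      ((d : ℝ) ^ 2)⁻¹ * (2 / ((0 : ℕ) + 1)) := mul_le_mul_of_nonneg_left h1 (by positivity)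
  refine h3.trans (le_of_eq ?_)
  field_simp
  simp

private lemma sum_totient_ge (M : ℕ) :
    Real.log (M + 1) ≤ 2 * ∑ p ∈ Finset.Icc 1 M, (Nat.totient p : ℝ) / (p : ℝ) ^ 2 := by
  classical
  have h1 := log_add_one_le_harmonic M
  have h2 : ((harmonic M : ℚ) : ℝ) = ∑ m ∈ Finset.Icc 1 M, ((m : ℝ))⁻¹ := by
    rw [harmonic_eq_sum_Icc]
    push_cast
    rfl
  have h3 : ∀ m ∈ Finset.Icc 1 M, ((m : ℝ))⁻¹ =
      ∑ p ∈ Finset.Icc 1 M, if p ∣ m then (Nat.totient p : ℝ) * ((m : ℝ) ^ 2)⁻¹ else 0 := by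
    intro m hm
    rw [Finset.mem_Icc] at hm
    have hm0 : (0 : ℝ) < m := by exact_mod_cast hm.1
    rw [← Finset.sum_filter]
    have h4 : (Finset.Icc 1 M).filter (fun p => p ∣ m) = m.divisors := by
      ext d
      rw [Finset.mem_filter, Finset.mem_Icc, Nat.mem_divisors]
      constructor
      · rintro ⟨_, h⟩
        exact ⟨h, by omega⟩
      · rintro ⟨h, _⟩
        have := Nat.le_of_dvd (by omega) h
        have := Nat.pos_of_dvd_of_pos h (by omega)
        exact ⟨⟨by omega, by omega⟩, h⟩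
    rw [h4, ← Finset.sum_mul]
    have h5 : ∑ d ∈ m.divisors, (Nat.totient d : ℝ) = m := by
      exact_mod_cast congrArg (Nat.cast (R := ℝ)) (Nat.sum_totient m)
    rw [h5]
    field_simp
  rw [Nat.cast_succ] at h1
  refine h1.trans ?_
  rw [h2, Finset.sum_congr rfl h3, Finset.sum_comm, Finset.mul_sum]
  refine Finset.sum_le_sum ?_
  intro p hp
  rw [Finset.mem_Icc] at hp
  rw [← Finset.sum_filter, ← Finset.mul_sum]
  have h6 := sum_mult_le M p hp.1
  have h7 : (0 : ℝ) ≤ Nat.totient p := Nat.cast_nonneg _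
  calc (Nat.totient p : ℝ) * ∑ m ∈ (Finset.Icc 1 M).filter (fun m => p ∣ m), ((m : ℝ) ^ 2)⁻¹
      ≤ (Nat.totient p : ℝ) * (2 / (p : ℝ) ^ 2) := mul_le_mul_of_nonneg_left h6 h7
    _ = 2 * ((Nat.totient p : ℝ) / (p : ℝ) ^ 2) := by ring

/-! ### the products -/

private def ff (x : (_ : ℕ) × (ℕ × (ℕ × ℕ))) : Fin 3 → ℤ :=
  ![(x.2.1 : ℤ) * x.2.2.2, (x.1 : ℤ) * x.2.2.2 + x.2.1 * x.2.2.1, (x.1 : ℤ) * x.2.2.1]

private def TS (H : ℕ) : Finset ((_ : ℕ) × (ℕ × (ℕ × ℕ))) :=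
  (Finset.Icc 1 (H / 2)).sigma (fun p => ((Finset.range p).filter (fun q => p.Coprime q)) ×ˢ
    (Finset.Icc 1 (H / (2 * p)) ×ˢ Finset.Icc 1 (H / (2 * p))))

private lemma card_TS (H : ℕ) :
    (TS H).card = ∑ p ∈ Finset.Icc 1 (H / 2), Nat.totient p * (H / (2 * p)) ^ 2 := by
  unfold TS
  rw [Finset.card_sigma]
  refine Finset.sum_congr rfl ?_
  intro p _
  rw [Finset.card_product, Finset.card_product, Nat.card_Icc, Nat.totient_eq_card_coprime, sq]
  simp

private lemma mem_TS {H : ℕ} {x : (_ : ℕ) × (ℕ × (ℕ × ℕ))} (hx : x ∈ TS H) :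
    1 ≤ x.1 ∧ x.2.1 < x.1 ∧ x.1.Coprime x.2.1 ∧ 1 ≤ x.2.2.1 ∧ x.2.2.1 ≤ H / (2 * x.1) ∧
      1 ≤ x.2.2.2 ∧ x.2.2.2 ≤ H / (2 * x.1) := by
  unfold TS at hx
  rw [Finset.mem_sigma, Finset.mem_product, Finset.mem_product, Finset.mem_filter,
    Finset.mem_Icc, Finset.mem_Icc, Finset.mem_Icc, Finset.mem_range] at hx
  obtain ⟨⟨h1, _⟩, ⟨h2, h3⟩, ⟨h4, h5⟩, h6, h7⟩ := hx
  exact ⟨h1, h2, h3, h4, h5, h6, h7⟩

private lemma ratPoly_ff (x : (_ : ℕ) × (ℕ × (ℕ × ℕ))) :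
    ratPoly (n := 2) (ff x) = (C (x.1 : ℚ) * X + C (x.2.1 : ℚ)) *
      (C (x.2.2.1 : ℚ) * X + C (x.2.2.2 : ℚ)) := by
  unfold ratPoly toPoly ff
  rw [Fin.sum_univ_three]
  simp only [Polynomial.map_add, Polynomial.map_mul, map_C, Polynomial.map_pow, map_X,
    Matrix.cons_val_zero, Matrix.cons_val_one, Matrix.cons_val, Fin.val_zero, Fin.val_one,
    Fin.val_two, pow_zero, pow_one, mul_one]
  simp only [eq_intCast, Int.cast_mul, Int.cast_natCast, Int.cast_add, C_mul, C_add]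
  ring

private lemma ff_mem (H : ℕ) (x : (_ : ℕ) × (ℕ × (ℕ × ℕ))) (hx : x ∈ TS H) :
    ff x ∈ {a ∈ (Box 2 H : Set (Fin 3 → ℤ)) |
      ¬ (a 2 ≠ 0 ∧ Nonempty ((ratPoly (n := 2) a).Gal ≃* Equiv.Perm (Fin 2)))} := by
  obtain ⟨h1, h2, h3, h4, h5, h6, h7⟩ := mem_TS hx
  obtain ⟨p, q, r, s⟩ := x
  simp only at h1 h2 h3 h4 h5 h6 h7
  have hR : (H / (2 * p)) * (2 * p) ≤ H := Nat.div_mul_le_self _ _
  constructor
  · rw [Finset.mem_coe]
    unfold Box
    rw [Fintype.mem_piFinset]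
    have b1 : p * r ≤ H := by
      calc p * r ≤ p * (H / (2 * p)) := Nat.mul_le_mul_left _ h5
        _ ≤ (H / (2 * p)) * (2 * p) := by nlinarith
        _ ≤ H := hR
    have b2 : q * s ≤ H := by
      calc q * s ≤ p * (H / (2 * p)) := Nat.mul_le_mul h2.le h7
        _ ≤ (H / (2 * p)) * (2 * p) := by nlinarith
        _ ≤ H := hR
    have b3 : p * s + q * r ≤ H := by
      calc p * s + q * r ≤ p * (H / (2 * p)) + p * (H / (2 * p)) :=
            Nat.add_le_add (Nat.mul_le_mul_left _ h7) (Nat.mul_le_mul h2.le h5)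
        _ = (H / (2 * p)) * (2 * p) := by ring
        _ ≤ H := hR
    intro i
    rw [Finset.mem_Icc]
    have hH : (0 : ℤ) ≤ H := Int.natCast_nonneg _
    fin_cases i
    · simp only [ff]
      have : ((q * s : ℕ) : ℤ) ≤ H := by exact_mod_cast b2
      have h0 : (0 : ℤ) ≤ ((q * s : ℕ) : ℤ) := Int.natCast_nonneg _
      push_cast at this h0
      refine ⟨?_, ?_⟩ <;> simp <;> linarith
    · simp only [ff]
      have : ((p * s + q * r : ℕ) : ℤ) ≤ H := by exact_mod_cast b3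
      have h0 : (0 : ℤ) ≤ ((p * s + q * r : ℕ) : ℤ) := Int.natCast_nonneg _
      push_cast at this h0
      refine ⟨?_, ?_⟩ <;> simp <;> linarith
    · simp only [ff]
      have : ((p * r : ℕ) : ℤ) ≤ H := by exact_mod_cast b1
      have h0 : (0 : ℤ) ≤ ((p * r : ℕ) : ℤ) := Int.natCast_nonneg _
      push_cast at this h0
      refine ⟨?_, ?_⟩ <;> simp <;> linarith
  · rintro ⟨-, ⟨e⟩⟩
    have hs : (ratPoly (n := 2) (ff ⟨p, q, r, s⟩)).Splits := by
      rw [ratPoly_ff]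
      refine Splits.mul ?_ ?_
      · exact Splits.of_natDegree_le_one (natDegree_linear_le)
      · exact Splits.of_natDegree_le_one (natDegree_linear_le)
    have := Gal.uniqueGalOfSplits _ hs
    have h8 : (Equiv.swap (0 : Fin 2) 1) = 1 := by
      apply e.symm.injective
      exact Subsingleton.elim _ _
    rw [Equiv.swap_eq_one_iff] at h8
    exact absurd h8 (by decide)

private lemma fiber_le (H : ℕ) (a : Fin 3 → ℤ) :
    ((TS H).filter (fun x => ff x = a)).card ≤ 2 := by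
  classical
  rcases ((TS H).filter (fun x => ff x = a)).eq_empty_or_nonempty with h0 | ⟨x0, hx0⟩
  · rw [h0]; simp
  have hP : ratPoly (n := 2) a ≠ 0 := by
    rw [Finset.mem_filter] at hx0
    obtain ⟨h1, h2, h3, h4, h5, h6, h7⟩ := mem_TS hx0.1
    rw [← hx0.2, ratPoly_ff]
    have h1' : (x0.1 : ℚ) ≠ 0 := by
      have : x0.1 ≠ 0 := by omega
      exact_mod_cast this
    have h4' : (x0.2.2.1 : ℚ) ≠ 0 := by
      have : x0.2.2.1 ≠ 0 := by omega
      exact_mod_cast this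
    refine mul_ne_zero ?_ ?_
    · intro h
      have := congrArg (fun P : ℚ[X] => P.coeff 1) h
      simp at this
      exact h1' (by exact_mod_cast this)
    · intro h
      have := congrArg (fun P : ℚ[X] => P.coeff 1) h
      simp at this
      exact h4' (by exact_mod_cast this)
  have hdeg : (ratPoly (n := 2) a).natDegree ≤ 2 := by
    unfold ratPoly toPoly
    refine (natDegree_map_le).trans ?_
    refine natDegree_sum_le_of_forall_le _ _ ?_
    intro i _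
    refine (natDegree_C_mul_X_pow_le _ _).trans ?_
    have := i.isLt
    omega
  have hcard : ((ratPoly (n := 2) a).roots.toFinset).card ≤ 2 :=
    (Multiset.toFinset_card_le _).trans ((card_roots' _).trans hdeg)
  refine le_trans (Finset.card_le_card_of_injOn (fun x => -(x.2.1 : ℚ) / x.1) ?_ ?_) hcard
  · intro x hx
    rw [Finset.mem_coe, Finset.mem_filter] at hx
    obtain ⟨h1, h2, h3, h4, h5, h6, h7⟩ := mem_TS hx.1
    rw [Finset.mem_coe, Multiset.mem_toFinset, mem_roots hP, IsRoot.def, ← hx.2, ratPoly_ff]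
    have h1' : (x.1 : ℚ) ≠ 0 := by
      have : x.1 ≠ 0 := by omega
      exact_mod_cast this
    simp only [eval_mul, eval_add, eval_C, eval_X]
    field_simp
    ring
  · intro x hx y hy hxy
    rw [Finset.mem_coe, Finset.mem_filter] at hx hy
    obtain ⟨h1, h2, h3, h4, h5, h6, h7⟩ := mem_TS hx.1
    obtain ⟨g1, g2, g3, g4, g5, g6, g7⟩ := mem_TS hy.1
    have hF : ff x = ff y := by rw [hx.2, hy.2]
    obtain ⟨p, q, r, s⟩ := x
    obtain ⟨p', q', r', s'⟩ := y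
    simp only at h1 h2 h3 h4 h5 h6 h7 g1 g2 g3 g4 g5 g6 g7 hxy
    have h1' : (p : ℚ) ≠ 0 := by
      have : p ≠ 0 := by omega
      exact_mod_cast this
    have g1' : (p' : ℚ) ≠ 0 := by
      have : p' ≠ 0 := by omega
      exact_mod_cast this
    have e1 : q * p' = q' * p := by
      rw [div_eq_div_iff h1' g1'] at hxy
      have : (q : ℚ) * p' = q' * p := by linarith
      exact_mod_cast this
    have d1 : p ∣ p' := by
      have : p ∣ q * p' := e1 ▸ Dvd.intro_left _ rfl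
      exact h3.dvd_of_dvd_mul_left this
    have d2 : p' ∣ p := by
      have : p' ∣ q' * p := e1 ▸ Dvd.intro_left _ rfl
      exact g3.dvd_of_dvd_mul_left this
    have e2 : p = p' := Nat.dvd_antisymm d1 d2
    subst e2
    have e3 : q = q' := Nat.eq_of_mul_eq_mul_right h1 e1
    subst e3
    have e4 : (p : ℤ) * r = p * r' := congrFun hF 2
    have e5 : (p : ℤ) * s + q * r = p * s' + q * r' := congrFun hF 1
    have hp0 : (p : ℤ) ≠ 0 := by
      have : p ≠ 0 := by omega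
      exact_mod_cast this
    have e6 : (r : ℤ) = r' := mul_left_cancel₀ hp0 e4
    have e7 : (s : ℤ) = s' := by
      rw [e6] at e5
      exact mul_left_cancel₀ hp0 (by linarith)
    have e8 : r = r' := by exact_mod_cast e6
    have e9 : s = s' := by exact_mod_cast e7
    rw [e8, e9]

/-- VW-N4: quadratic polynomials: many reducible ones. -/
theorem quadratic_lower : ∃ c : ℝ, 0 < c ∧ ∀ H : ℕ, 1 ≤ H →
    c * (H : ℝ) ^ 2 * Real.log H ≤
    ({a ∈ (Box 2 H : Set (Fin 3 → ℤ)) |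
      ¬ (a 2 ≠ 0 ∧ Nonempty ((ratPoly (n := 2) a).Gal ≃* Equiv.Perm (Fin 2)))}.ncard : ℝ) := by
  classical
  refine ⟨1 / 128, by norm_num, ?_⟩
  intro H hH
  set S := {a ∈ (Box 2 H : Set (Fin 3 → ℤ)) |
      ¬ (a 2 ≠ 0 ∧ Nonempty ((ratPoly (n := 2) a).Gal ≃* Equiv.Perm (Fin 2)))} with hS
  have hfin : S.Finite := (Box 2 H).finite_toSet.subset (fun a ha => ha.1)
  have h1 : (TS H).card ≤ 2 * ((TS H).image ff).card :=
    Finset.card_le_mul_card_image _ 2 (fun a _ => fiber_le H a)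
  have h2 : ((TS H).image ff).card ≤ S.ncard := by
    rw [← Set.ncard_coe_finset]
    refine Set.ncard_le_ncard ?_ hfin
    intro a ha
    rw [Finset.mem_coe, Finset.mem_image] at ha
    obtain ⟨x, hx, rfl⟩ := ha
    exact ff_mem H x hx
  have h3 : ((TS H).card : ℝ) ≤ 2 * (S.ncard : ℝ) := by
    have : (TS H).card ≤ 2 * S.ncard := h1.trans (Nat.mul_le_mul_left _ h2)
    exact_mod_cast this
  have hH0 : (0 : ℝ) < H := by exact_mod_cast hH
  have h4 : (H : ℝ) ^ 2 / 16 * ∑ p ∈ Finset.Icc 1 (H / 2), (Nat.totient p : ℝ) / (p : ℝ) ^ 2 ≤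
      ((TS H).card : ℝ) := by
    rw [card_TS, Nat.cast_sum, Finset.mul_sum]
    refine Finset.sum_le_sum ?_
    intro p hp
    rw [Finset.mem_Icc] at hp
    have hp0 : (0 : ℝ) < p := by exact_mod_cast hp.1
    have h5 : 1 ≤ H / (2 * p) := by
      rw [Nat.one_le_div_iff (by omega)]
      omega
    have h6 : H < (H / (2 * p) + 1) * (2 * p) := by
      have := Nat.lt_div_mul_add (a := H) (b := 2 * p) (by omega)
      nlinarith
    have h7 : (H : ℝ) / (4 * p) ≤ ((H / (2 * p) : ℕ) : ℝ) := by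
      rw [div_le_iff₀ (by positivity)]
      have h8 : (H : ℝ) < (((H / (2 * p) : ℕ) : ℝ) + 1) * (2 * p) := by exact_mod_cast h6
      have h9 : (1 : ℝ) ≤ ((H / (2 * p) : ℕ) : ℝ) := by exact_mod_cast h5
      nlinarith
    have h10 : ((H : ℝ) / (4 * p)) ^ 2 ≤ ((H / (2 * p) : ℕ) : ℝ) ^ 2 :=
      pow_le_pow_left₀ (by positivity) h7 2
    have h11 : (0 : ℝ) ≤ Nat.totient p := Nat.cast_nonneg _
    rw [Nat.cast_mul, Nat.cast_pow]
    calc (H : ℝ) ^ 2 / 16 * ((Nat.totient p : ℝ) / (p : ℝ) ^ 2)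
        = (Nat.totient p : ℝ) * ((H : ℝ) / (4 * p)) ^ 2 := by field_simp; ring
      _ ≤ (Nat.totient p : ℝ) * ((H / (2 * p) : ℕ) : ℝ) ^ 2 :=
        mul_le_mul_of_nonneg_left h10 h11
  have h12 := sum_totient_ge (H / 2)
  have h13 : Real.log H ≤ 2 * Real.log ((H / 2 : ℕ) + 1) := by
    have h14 : (H : ℝ) ≤ (((H / 2 : ℕ) : ℝ) + 1) ^ 2 := by
      have h15 : H ≤ (H / 2 + 1) ^ 2 := by
        have : H < (H / 2 + 1) * 2 := by omega
        nlinarith [Nat.zero_le (H / 2)]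
      exact_mod_cast h15
    calc Real.log H ≤ Real.log ((((H / 2 : ℕ) : ℝ) + 1) ^ 2) := Real.log_le_log hH0 h14
      _ = 2 * Real.log ((H / 2 : ℕ) + 1) := by rw [Real.log_pow]; norm_num
  set W := ∑ p ∈ Finset.Icc 1 (H / 2), (Nat.totient p : ℝ) / (p : ℝ) ^ 2 with hW
  have h16 : Real.log H ≤ 4 * W := by linarith
  have h17 : (H : ℝ) ^ 2 * Real.log H ≤ (H : ℝ) ^ 2 * (4 * W) :=
    mul_le_mul_of_nonneg_left h16 (by positivity)
  nlinarith

end Pool.Agent.Helper12.VW
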