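import Pool.Agent.Helper15.VW.M1

/-! # VW-M2: number of forms over `ZMod p` of index at least `k` -/

open Polynomial

namespace Pool.Agent.Helper12.VW

private lemma coeff_toPoly2 {R : Type*} [Semiring R] {n : ℕ} (a : Fin (n + 1) → R)
    (i : Fin (n + 1)) : (toPoly a).coeff i = a i := by
  classical
  unfold toPoly
  rw [finsetSum_coeff, Finset.sum_eq_single i]
  · simp [coeff_C_mul, coeff_X_pow]
  · intro j _ hj
    have : (i : ℕ) ≠ (j : ℕ) := fun h => hj (Fin.ext h.symm)
    simp [coeff_C_mul, coeff_X_pow, this]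
  · intro h
    exact absurd (Finset.mem_univ _) h

private lemma toPoly_inj {R : Type*} [Semiring R] {n : ℕ} {a b : Fin (n + 1) → R}
    (h : toPoly a = toPoly b) : a = b := by
  funext i
  rw [← coeff_toPoly2 a i, h, coeff_toPoly2]

private lemma ncard_le_card {α β : Type*} [Finite β] (S : Set α) (f : α → β)
    (hf : Set.InjOn f S) : S.Finite ∧ S.ncard ≤ Nat.card β := by
  constructor
  · exact Set.Finite.of_finite_image (Set.toFinite _) hf
  · rw [← Set.ncard_univ]
    exact Set.ncard_le_ncard_of_injOn f (fun _ _ => Set.mem_univ _) hf (Set.toFinite _)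

/-- the polynomials of a given type -/
private def TT (n p : ℕ) [Fact p.Prime] (d : Fin n → ℕ) : Set (Fin (n + 1) → ZMod p) :=
  {v | ∃ G : Fin n → (ZMod p)[X], (∀ j, (G j).natDegree ≤ d j) ∧
    (∀ j : Fin n, 0 < (j : ℕ) → (G j).Monic) ∧ toPoly v = ∏ j : Fin n, G j ^ ((j : ℕ) + 1)}

private lemma TT_card (n p : ℕ) [Fact p.Prime] (hn : 1 ≤ n) (d : Fin n → ℕ) (hd : ∀ j, d j ≤ n) :
    (TT n p d).ncard ≤ (n + 1) ^ n * p ^ (∑ j, d j + 1) := by
  classical
  choose! G hG using (fun (v : Fin (n + 1) → ZMod p) (hv : v ∈ TT n p d) => hv)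
  let code : (Fin (n + 1) → ZMod p) →
      ZMod p × (∀ j : Fin n, Fin (n + 1) × (Fin (d j) → ZMod p)) := fun v =>
    ((G v ⟨0, by omega⟩).coeff (d ⟨0, by omega⟩),
      fun j => (Fin.ofNat (n + 1) (G v j).natDegree, fun i => (G v j).coeff i))
  have hinj : Set.InjOn code (TT n p d) := by
    intro v hv w hw hvw
    obtain ⟨h1, h2, h3⟩ := hG v hv
    obtain ⟨h1', h2', h3'⟩ := hG w hw
    have e1 : (G v ⟨0, by omega⟩).coeff (d ⟨0, by omega⟩) =
        (G w ⟨0, by omega⟩).coeff (d ⟨0, by omega⟩) := congrArg Prod.fst hvw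
    have e2 : ∀ j, Fin.ofNat (n + 1) (G v j).natDegree =
        Fin.ofNat (n + 1) (G w j).natDegree := fun j =>
      congrArg Prod.fst (congrFun (congrArg Prod.snd hvw) j)
    have e3 : ∀ j, ∀ i : Fin (d j), (G v j).coeff i = (G w j).coeff i := fun j i =>
      congrFun (congrArg Prod.snd (congrFun (congrArg Prod.snd hvw) j)) i
    have e4 : ∀ j, (G v j).natDegree = (G w j).natDegree := by
      intro j
      have := congrArg Fin.val (e2 j)
      simp only [Fin.ofNat] at this
      rw [Nat.mod_eq_of_lt, Nat.mod_eq_of_lt] at this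
      · exact this
      · have := h1' j; have := hd j; omega
      · have := h1 j; have := hd j; omega
    have key : ∀ j, G v j = G w j := by
      intro j
      ext i
      rcases Nat.lt_trichotomy i (d j) with hi | hi | hi
      · exact e3 j ⟨i, hi⟩
      · by_cases hj : (j : ℕ) = 0
        · have : j = ⟨0, by omega⟩ := Fin.ext hj
          rw [hi, this]
          exact e1
        · rcases Nat.lt_or_ge (G v j).natDegree i with h5 | h5
          · rw [coeff_eq_zero_of_natDegree_lt h5, coeff_eq_zero_of_natDegree_lt (e4 j ▸ h5)]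
          · have h6 : i = (G v j).natDegree := by have := h1 j; omega
            have h7 : i = (G w j).natDegree := by rw [← e4 j]; exact h6
            have h8 : (G v j).coeff i = 1 := by
              rw [h6]; exact (h2 j (by omega)).coeff_natDegree
            have h9 : (G w j).coeff i = 1 := by
              rw [h7]; exact (h2' j (by omega)).coeff_natDegree
            rw [h8, h9]
      · rw [coeff_eq_zero_of_natDegree_lt (lt_of_le_of_lt (h1 j) hi),
          coeff_eq_zero_of_natDegree_lt (lt_of_le_of_lt (h1' j) hi)]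
    apply toPoly_inj
    rw [h3, h3']
    exact Finset.prod_congr rfl (fun j _ => by rw [key j])
  have h := (ncard_le_card (TT n p d) code hinj).2
  refine h.trans ?_
  rw [Nat.card_prod, Nat.card_pi]
  have h6 : ∀ j : Fin n, Nat.card (Fin (n + 1) × (Fin (d j) → ZMod p)) = (n + 1) * p ^ d j := by
    intro j
    rw [Nat.card_prod, Nat.card_fun, Nat.card_zmod, Nat.card_fin, Nat.card_fin]
  rw [Finset.prod_congr rfl (fun j _ => h6 j), Nat.card_zmod, Finset.prod_mul_distrib, Finset.prod_const, Finset.card_univ, Fintype.card_fin,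
    Finset.prod_pow_eq_pow_sum, pow_succ]
  apply le_of_eq
  ring

/-- VW-M2 -/
theorem card_Ind_le (n : ℕ) (hn : 1 ≤ n) : ∃ c : ℕ, ∀ (p : ℕ) [Fact p.Prime] (k : ℕ), k ≤ n →
    (Ind n p k).ncard ≤ c * p ^ (n + 1 - k) := by
  classical
  refine ⟨(n + 1) ^ n * (n + 1) ^ n + 1, ?_⟩
  intro p hp k hk
  have hp1 : 1 ≤ p := hp.out.one_lt.le
  -- the possible types
  set D : Finset (Fin n → Fin (n + 1)) :=
    Finset.univ.filter (fun d => ∑ j, (d j : ℕ) + k ≤ n) with hD
  have hsub : Ind n p k ⊆ {0} ∪ ⋃ d ∈ D, TT n p (fun j => (d j : ℕ)) := by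
    intro v hv
    by_cases hv0 : v = 0
    · left; exact hv0
    · right
      obtain ⟨d, G, h1, h2, h3, h4, h5⟩ := exists_type hn k v hv hv0
      have hdn : ∀ j, d j < n + 1 := by
        intro j
        have : d j ≤ ∑ j, d j := Finset.single_le_sum (fun _ _ => Nat.zero_le _)
          (Finset.mem_univ j)
        omega
      simp only [Set.mem_iUnion]
      refine ⟨fun j => ⟨d j, hdn j⟩, ?_, G, h3, h4, h5⟩
      rw [hD, Finset.mem_filter]
      exact ⟨Finset.mem_univ _, h2⟩
  have hfin : Finite (Fin (n + 1) → ZMod p) := inferInstance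
  have h1 : (Ind n p k).ncard ≤ 1 + ∑ d ∈ D, (TT n p (fun j => (d j : ℕ))).ncard := by
    refine (Set.ncard_le_ncard hsub (Set.toFinite _)).trans ?_
    refine (Set.ncard_union_le _ _).trans ?_
    rw [Set.ncard_singleton]
    refine Nat.add_le_add_left ?_ 1
    exact Finset.set_ncard_biUnion_le D _
  have h2 : ∀ d ∈ D, (TT n p (fun j => (d j : ℕ))).ncard ≤ (n + 1) ^ n * p ^ (n + 1 - k) := by
    intro d hd
    rw [hD, Finset.mem_filter] at hd
    refine (TT_card n p hn (fun j => (d j : ℕ)) (fun j => by have := (d j).isLt; omega)).trans ?_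
    refine Nat.mul_le_mul_left _ (Nat.pow_le_pow_right hp1 ?_)
    have := hd.2
    omega
  have h3 : D.card ≤ (n + 1) ^ n := by
    refine (Finset.card_le_univ D).trans ?_
    rw [Fintype.card_fun, Fintype.card_fin, Fintype.card_fin]
  have h4 : 1 ≤ p ^ (n + 1 - k) := Nat.one_le_pow _ _ hp1
  calc (Ind n p k).ncard ≤ 1 + ∑ d ∈ D, (TT n p (fun j => (d j : ℕ))).ncard := h1
    _ ≤ 1 + ∑ _d ∈ D, (n + 1) ^ n * p ^ (n + 1 - k) := Nat.add_le_add_left (Finset.sum_le_sum h2) 1
    _ = 1 + D.card * ((n + 1) ^ n * p ^ (n + 1 - k)) := by rw [Finset.sum_const, smul_eq_mul]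
    _ ≤ p ^ (n + 1 - k) + (n + 1) ^ n * ((n + 1) ^ n * p ^ (n + 1 - k)) :=
        Nat.add_le_add h4 (Nat.mul_le_mul_right _ h3)
    _ = ((n + 1) ^ n * (n + 1) ^ n + 1) * p ^ (n + 1 - k) := by ring

end Pool.Agent.Helper12.VW
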