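import Pool.Agent.Helper12.VW.Defs

/-! # VW-M1: factorisation type of a form over `ZMod p` -/

open Polynomial UniqueFactorizationMonoid

namespace Pool.Agent.Helper12.VW

private lemma coeff_toPoly_last' {R : Type*} [Semiring R] {n : ℕ} (a : Fin (n + 1) → R) :
    (toPoly a).coeff n = a (Fin.last n) := by
  classical
  unfold toPoly
  rw [finsetSum_coeff, Finset.sum_eq_single (Fin.last n)]
  · simp [coeff_C_mul, coeff_X_pow]
  · intro i _ hi
    have : n ≠ (i : ℕ) := fun h => hi (Fin.ext (by simp [h]))
    simp [coeff_C_mul, coeff_X_pow, this]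
  · intro h
    exact absurd (Finset.mem_univ _) h

private lemma natDegree_toPoly_le' {R : Type*} [Semiring R] {n : ℕ} (a : Fin (n + 1) → R) :
    (toPoly a).natDegree ≤ n := by
  unfold toPoly
  refine natDegree_sum_le_of_forall_le _ _ ?_
  intro i _
  refine (natDegree_C_mul_X_pow_le _ _).trans ?_
  have := i.isLt
  omega

private lemma toPoly_ne_zero' {R : Type*} [Semiring R] {n : ℕ} (a : Fin (n + 1) → R)
    (ha : a ≠ 0) : toPoly a ≠ 0 := by
  classical
  intro h
  apply ha
  funext i
  have h1 : (toPoly a).coeff i = a i := by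
    unfold toPoly
    rw [finsetSum_coeff, Finset.sum_eq_single i]
    · simp [coeff_C_mul, coeff_X_pow]
    · intro j _ hj
      have : (i : ℕ) ≠ (j : ℕ) := fun h => hj (Fin.ext h.symm)
      simp [coeff_C_mul, coeff_X_pow, this]
    · intro h
      exact absurd (Finset.mem_univ _) h
  rw [← h1, h]
  rfl

/-- number of distinct roots in the algebraic closure -/
private lemma ncard_rootSet {p : ℕ} [Fact p.Prime] [DecidableEq (ZMod p)] (f : (ZMod p)[X])
    (hf : f ≠ 0) :
    (f.rootSet (AlgebraicClosure (ZMod p))).ncard =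
      ∑ q ∈ (normalizedFactors f).toFinset, q.natDegree := by
  classical
  set r : (ZMod p)[X] := radical f with hr
  have hrad : r = ∏ q ∈ (normalizedFactors f).toFinset, q := by
    rw [hr, radical, ← toFinset_normalizedFactors]
    simp
  have hmon : ∀ q ∈ (normalizedFactors f).toFinset, q.Monic := by
    intro q hq
    rw [Multiset.mem_toFinset, Polynomial.mem_normalizedFactors_iff hf] at hq
    exact hq.2.1
  have hdeg : r.natDegree = ∑ q ∈ (normalizedFactors f).toFinset, q.natDegree := by
    rw [hrad, natDegree_prod_of_monic _ _ hmon]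
  have hr0 : r ≠ 0 := radical_ne_zero
  have hsq : Squarefree r := squarefree_radical
  have hsep : r.Separable := PerfectField.separable_iff_squarefree.2 hsq
  have hset : f.rootSet (AlgebraicClosure (ZMod p)) = r.rootSet (AlgebraicClosure (ZMod p)) := by
    ext x
    rw [mem_rootSet_of_ne hf, mem_rootSet_of_ne hr0]
    constructor
    · intro h
      obtain ⟨m, hm⟩ := exists_dvd_radical_self_pow hf
      obtain ⟨g, hg⟩ := hm
      have : aeval x (r ^ m) = 0 := by
        rw [hr, hg, map_mul, h, zero_mul]
      rw [map_pow] at this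
      rcases Nat.eq_zero_or_pos m with h0 | h0
      · rw [h0, pow_zero] at this
        exact absurd this one_ne_zero
      · exact (pow_eq_zero_iff (by omega)).1 this
    · intro h
      obtain ⟨g, hg⟩ := (radical_dvd_self : radical f ∣ f)
      rw [hg, map_mul, ← hr, h, zero_mul]
  rw [hset, ← hdeg, ← card_rootSet_eq_natDegree hsep
    (IsAlgClosed.splits (r.map (algebraMap (ZMod p) (AlgebraicClosure (ZMod p))))),
    ← Nat.card_eq_fintype_card, Nat.card_coe_set_eq]

/-- VW-M1: factorisation type. -/
theorem exists_type {n p : ℕ} (hn : 1 ≤ n) [Fact p.Prime] (k : ℕ) (v : Fin (n + 1) → ZMod p)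
    (hv : v ∈ Ind n p k) (hv0 : v ≠ 0) :
    ∃ (d : Fin n → ℕ) (G : Fin n → (ZMod p)[X]),
      (∑ j : Fin n, ((j : ℕ) + 1) * d j = n) ∧ (∑ j, d j) + k ≤ n ∧
      (∀ j, (G j).natDegree ≤ d j) ∧ (∀ j : Fin n, 0 < (j : ℕ) → (G j).Monic) ∧
      toPoly v = ∏ j : Fin n, G j ^ ((j : ℕ) + 1) := by
  classical
  set f := toPoly v with hfdef
  have hf : f ≠ 0 := toPoly_ne_zero' v hv0
  have hfn : f.natDegree ≤ n := natDegree_toPoly_le' v
  set e := n - f.natDegree with he
  set S := (normalizedFactors f).toFinset with hS
  set c : (ZMod p)[X] → ℕ := fun q => (normalizedFactors f).count q with hc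
  have hmon : ∀ q ∈ S, q.Monic := by
    intro q hq
    rw [hS, Multiset.mem_toFinset, Polynomial.mem_normalizedFactors_iff hf] at hq
    exact hq.2.1
  have hirr : ∀ q ∈ S, Irreducible q := by
    intro q hq
    rw [hS, Multiset.mem_toFinset, Polynomial.mem_normalizedFactors_iff hf] at hq
    exact hq.1
  have hfac : f = C f.leadingCoeff * ∏ q ∈ S, q ^ c q := by
    conv_lhs => rw [← leadingCoeff_mul_prod_normalizedFactors f]
    rw [Finset.prod_multiset_count]
  have hdegf : f.natDegree = ∑ q ∈ S, c q * q.natDegree := by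
    conv_lhs => rw [hfac]
    rw [natDegree_C_mul (leadingCoeff_ne_zero.2 hf), natDegree_prod_of_monic]
    · refine Finset.sum_congr rfl ?_
      intro q _
      rw [natDegree_pow]
    · intro q hq
      exact (hmon q hq).pow _
  have hc1 : ∀ q ∈ S, 1 ≤ c q := by
    intro q hq
    rw [hS, Multiset.mem_toFinset] at hq
    exact Multiset.one_le_count_iff_mem.2 hq
  have hcn : ∀ q ∈ S, c q ≤ n := by
    intro q hq
    have h1 : 1 ≤ q.natDegree := (hirr q hq).natDegree_pos
    have h2 : c q * q.natDegree ≤ ∑ q ∈ S, c q * q.natDegree :=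
      Finset.single_le_sum (f := fun q => c q * q.natDegree) (fun _ _ => Nat.zero_le _) hq
    have h3 : c q ≤ c q * q.natDegree := Nat.le_mul_of_pos_right _ h1
    omega
  set G' : ℕ → (ZMod p)[X] := fun j => ∏ q ∈ S.filter (fun q => c q - 1 = j), q with hG'
  have hG'mon : ∀ j, (G' j).Monic := by
    intro j
    refine monic_prod_of_monic _ _ ?_
    intro q hq
    exact hmon q (Finset.mem_filter.1 hq).1
  have hmaps : ∀ q ∈ S, c q - 1 ∈ Finset.range n := by
    intro q hq
    have := hc1 q hq
    have := hcn q hq
    rw [Finset.mem_range]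
    omega
  have hprodG' : ∏ j : Fin n, G' j ^ ((j : ℕ) + 1) = ∏ q ∈ S, q ^ c q := by
    rw [← Finset.prod_range (fun j => G' j ^ (j + 1)),
      ← Finset.prod_fiberwise_of_maps_to hmaps (fun q => q ^ c q)]
    refine Finset.prod_congr rfl ?_
    intro j _
    rw [hG']
    simp only
    rw [← Finset.prod_pow]
    refine Finset.prod_congr rfl ?_
    intro q hq
    rw [Finset.mem_filter] at hq
    have := hc1 q hq.1
    have h4 : c q = j + 1 := by omega
    rw [h4]
  have hsumG' : ∑ j : Fin n, (G' j).natDegree = ∑ q ∈ S, q.natDegree := by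
    rw [← Finset.sum_range (fun j => (G' j).natDegree),
      ← Finset.sum_fiberwise_of_maps_to hmaps (fun q => q.natDegree)]
    refine Finset.sum_congr rfl ?_
    intro j _
    rw [hG']
    simp only
    rw [natDegree_prod_of_monic]
    intro q hq
    exact hmon q (Finset.mem_filter.1 hq).1
  have hsumG'2 : ∑ j : Fin n, ((j : ℕ) + 1) * (G' j).natDegree = f.natDegree := by
    rw [← Finset.sum_range (fun j => (j + 1) * (G' j).natDegree), hdegf,
      ← Finset.sum_fiberwise_of_maps_to hmaps (fun q => c q * q.natDegree)]
    refine Finset.sum_congr rfl ?_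
    intro j _
    rw [hG']
    simp only
    rw [natDegree_prod_of_monic]
    · rw [Finset.mul_sum]
      refine Finset.sum_congr rfl ?_
      intro q hq
      rw [Finset.mem_filter] at hq
      have := hc1 q hq.1
      have h4 : c q = j + 1 := by omega
      rw [h4]
    · intro q hq
      exact hmon q (Finset.mem_filter.1 hq).1
  -- the degree drop
  have hlast : (v (Fin.last n) = 0) ↔ e ≠ 0 := by
    have h5 : f.coeff n = v (Fin.last n) := coeff_toPoly_last' v
    constructor
    · intro h6 h7
      have h8 : f.natDegree = n := by omega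
      rw [h6, ← h8] at h5
      exact hf (leadingCoeff_eq_zero.1 h5)
    · intro h6
      rw [← h5]
      exact coeff_eq_zero_of_natDegree_lt (by omega)
  have hnr : (∑ q ∈ S, q.natDegree) + (if e = 0 then 0 else 1) + k ≤ n := by
    rcases hv with h | h
    · exact absurd h hv0
    · unfold nroots at h
      rw [← hfdef, ncard_rootSet f hf] at h
      by_cases h7 : e = 0
      · rw [if_pos h7]
        have : ¬ v (Fin.last n) = 0 := fun h8 => (hlast.1 h8) h7
        rw [if_neg this] at h
        exact h
      · rw [if_neg h7]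
        rw [if_pos (hlast.2 h7)] at h
        exact h
  have hsum1 : ∑ j : Fin n, ((j : ℕ) + 1) * (if (j : ℕ) + 1 = e then 1 else 0) = e := by
    rcases Nat.eq_zero_or_pos e with h | h
    · rw [h]
      refine Finset.sum_eq_zero ?_
      intro j _
      rw [if_neg (by omega), mul_zero]
    · rw [Finset.sum_eq_single ⟨e - 1, by omega⟩]
      · simp only
        rw [if_pos (by omega)]
        omega
      · intro j _ hj
        rw [if_neg, mul_zero]
        intro h8
        exact hj (Fin.ext (by simp only; omega))
      · intro h8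
        exact absurd (Finset.mem_univ _) h8
  have hsum2 : ∑ j : Fin n, (if (j : ℕ) + 1 = e then 1 else 0) = if e = 0 then 0 else 1 := by
    rcases Nat.eq_zero_or_pos e with h | h
    · rw [h, if_pos rfl]
      refine Finset.sum_eq_zero ?_
      intro j _
      rw [if_neg (by omega)]
    · rw [if_neg (by omega), Finset.sum_eq_single ⟨e - 1, by omega⟩]
      · simp only
        rw [if_pos (by omega)]
      · intro j _ hj
        rw [if_neg]
        intro h8
        exact hj (Fin.ext (by simp only; omega))
      · intro h8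
        exact absurd (Finset.mem_univ _) h8
  refine ⟨fun j => (G' j).natDegree + (if (j : ℕ) + 1 = e then 1 else 0),
    fun j => (if (j : ℕ) = 0 then C f.leadingCoeff else 1) * G' j, ?_, ?_, ?_, ?_, ?_⟩
  · simp only [mul_add, Finset.sum_add_distrib]
    rw [hsumG'2, hsum1]
    omega
  · rw [Finset.sum_add_distrib, hsumG', hsum2]
    exact hnr
  · intro j
    refine le_trans ?_ (Nat.le_add_right _ _)
    simp only
    by_cases h9 : (j : ℕ) = 0
    · rw [if_pos h9]
      exact natDegree_C_mul_le _ _
    · rw [if_neg h9, one_mul]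
  · intro j hj
    simp only
    rw [if_neg (by omega), one_mul]
    exact hG'mon j
  · simp only [mul_pow, Finset.prod_mul_distrib]
    rw [hprodG', Finset.prod_eq_single ⟨0, by omega⟩]
    · simp only [if_true, zero_add, pow_one]
      exact hfac
    · intro j _ hj
      rw [if_neg, one_pow]
      intro h9
      exact hj (Fin.ext h9)
    · intro h8
      exact absurd (Finset.mem_univ _) h8

end Pool.Agent.Helper12.VW
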